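import Mathlib
import Pool.Agent.H665M.F2

set_option autoImplicit false

namespace Pool.Agent.Results.MP_bac815_al.Counterexample

/-- The simple Lie group `SL(3,ℝ)` (of real rank 2) with its usual topology. -/
abbrev G : Type := Matrix.SpecialLinearGroup (Fin 3) ℝ

/-- `Γ` is a cocompact lattice in `G`: a discrete subgroup with `G/Γ` compact. -/
def IsCocompactLattice (Γ : Subgroup G) : Prop := DiscreteTopology Γ ∧ CompactSpace (G ⧸ Γ)

/-- The path `α : [0,1] → X` is a geodesic (constant speed shortest path) from `x` to `y`. -/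
def IsGeodesic {X : Type} [MetricSpace X] (α : ℝ → X) (x y : X) : Prop :=
  α 0 = x ∧ α 1 = y ∧ ∀ s ∈ Set.Icc (0 : ℝ) 1, ∀ t ∈ Set.Icc (0 : ℝ) 1,
    dist (α s) (α t) = |s - t| * dist x y

/-- `X` is a nonempty complete CAT(0) space: complete, geodesic, and for every geodesic triangle and
every comparison triangle `x' y' z'` in the Euclidean plane `ℂ` (same side lengths), points on two
sides are at most as far apart as the corresponding points of the comparison triangle. -/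
structure IsCompleteCAT0 (X : Type) [MetricSpace X] : Prop where
  nonempty : Nonempty X
  complete : CompleteSpace X
  geodesic : ∀ x y : X, ∃ α : ℝ → X, IsGeodesic α x y
  comparison : ∀ (x y z : X) (α β : ℝ → X), IsGeodesic α x y → IsGeodesic β x z →
    ∀ x' y' z' : ℂ, ‖x' - y'‖ = dist x y → ‖x' - z'‖ = dist x z → ‖y' - z'‖ = dist y z →
      ∀ s ∈ Set.Icc (0 : ℝ) 1, ∀ t ∈ Set.Icc (0 : ℝ) 1,
        dist (α s) (β t) ≤ ‖((1 - s) * x' + s * y') - ((1 - t) * x' + t * z')‖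

/-- `ρ` is an action of the group `H` on `X` by isometries, i.e. a homomorphism `H → Isom(X)`. -/
structure IsIsometricAction {H : Type} [Group H] {X : Type} [MetricSpace X] (ρ : H → X → X) :
    Prop where
  map_one : ∀ x : X, ρ 1 x = x
  map_mul : ∀ (g h : H) (x : X), ρ (g * h) x = ρ g (ρ h x)
  isometry : ∀ (g : H) (x y : X), dist (ρ g x) (ρ g y) = dist x y

/-- `Z` is an admissible subspace: nonempty, closed, convex and `ρ(Γ)`-invariant. -/
structure IsAdmissible {Γ : Subgroup G} {X : Type} [MetricSpace X] (ρ : Γ → X → X)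
    (Z : Set X) : Prop where
  nonempty : Z.Nonempty
  closed : IsClosed Z
  convex : ∀ x ∈ Z, ∀ y ∈ Z, ∀ α : ℝ → X, IsGeodesic α x y → ∀ t ∈ Set.Icc (0 : ℝ) 1, α t ∈ Z
  invariant : ∀ γ : Γ, ρ γ '' Z = Z

/-- The restriction of `ρ` to the invariant subspace `Z` almost extends to `G`: on `Z` it is the
product `ρ₁(γ)ρ₂(γ)` of a continuous isometric action `ρ₁` of `G` on `Z` (isometry groups carry the
topology of pointwise convergence) and an isometric action `ρ₂` of `Γ` on `Z` with bounded orbits,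
with `ρ₁(G)` commuting with `ρ₂(Γ)`. -/
def AlmostExtends {Γ : Subgroup G} {X : Type} [MetricSpace X] (ρ : Γ → X → X) (Z : Set X) : Prop :=
  ∃ (ρ₁ : G → Z → Z) (ρ₂ : Γ → Z → Z), IsIsometricAction ρ₁ ∧ IsIsometricAction ρ₂ ∧
    (∀ z : Z, Continuous fun g : G => ρ₁ g z) ∧
    (∀ z : Z, Bornology.IsBounded {w : Z | ∃ γ : Γ, w = ρ₂ γ z}) ∧
    (∀ (g : G) (γ : Γ) (z : Z), ρ₁ g (ρ₂ γ z) = ρ₂ γ (ρ₁ g z)) ∧
    ∀ (γ : Γ) (z : Z), ρ γ z = ρ₁ γ (ρ₂ γ z)

open Bac815 Filter in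
/-- Negative answer to Q1, case (b): `G = SL(3,ℝ)`, a cocompact lattice `Γ`, a complete CAT(0) space
`X` and an isometric action `ρ` of `Γ` on `X` such that the restriction of `ρ` to no admissible
subspace almost extends to `G`. -/
theorem result : ∃ Γ : Subgroup G, IsCocompactLattice Γ ∧
    ∃ (X : Type) (_ : MetricSpace X), IsCompleteCAT0 X ∧
      ∃ ρ : Γ → X → X, IsIsometricAction ρ ∧
        ∀ Z : Set X, IsAdmissible ρ Z → ¬ AlmostExtends ρ Z := by
  obtain ⟨O, hO, d, hdO, hd, h1, h2, h3⟩ := J3_order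
  -- the group of norm one units
  let Γ : Subgroup G :=
    { carrier := {g | (g : Matrix (Fin 3) (Fin 3) ℝ) ∈ O}
      one_mem' := O.one_mem
      mul_mem' := fun {a b} ha hb => by
        show ((a * b : G) : Matrix (Fin 3) (Fin 3) ℝ) ∈ O
        rw [Matrix.SpecialLinearGroup.coe_mul]
        exact O.mul_mem ha hb
      inv_mem' := fun {a} ha => by
        show ((a⁻¹ : G) : Matrix (Fin 3) (Fin 3) ℝ) ∈ O
        rw [Matrix.SpecialLinearGroup.coe_inv]
        exact hO.adj _ ha }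
  have hΓ : ∀ g : G, g ∈ Γ ↔ (g : Matrix (Fin 3) (Fin 3) ℝ) ∈ O := fun g => Iff.rfl
  have hO4 : J4_GoodOrder O := ⟨hO.basis, hO.det_int, hO.det_ne, hO.adj⟩
  refine ⟨Γ, ⟨J4_discrete O hO4 Γ hΓ, J4_cocompact O hO4 Γ hΓ⟩, ?_⟩
  have hmem : Dg d hd ∈ Γ := hdO
  obtain ⟨b, hb⟩ := hO.basis
  have hinf : ∀ n, 1 ≤ n → (⟨Dg d hd, hmem⟩ : Γ) ^ n ≠ 1 := by
    intro n hn h
    have h4 : (Dg d hd) ^ n = 1 := congrArg Subtype.val h
    obtain ⟨hD, hpow⟩ := Dg_pow d hd n
    rw [hpow] at h4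
    have h5 : Matrix.diagonal (fun i => d i ^ n) = (1 : Matrix (Fin 3) (Fin 3) ℝ) := congrArg Subtype.val h4
    have h6 : ∀ i, d i ^ n = 1 := by
      intro i
      have := congrFun (congrFun h5 i) i
      simpa using this
    have h7 : |d 1| ^ n < |d 0| ^ n := pow_lt_pow_left₀ h2 (abs_nonneg _) (by omega)
    rw [← abs_pow, ← abs_pow, h6, h6] at h7
    exact lt_irrefl _ h7
  obtain ⟨P, N, hN, hfix, hrec⟩ := exists_space hΓ hO.det_int hO.det_ne b hb ⟨Dg d hd, hmem⟩ hinf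
  have hcn := P.X_cn
  refine ⟨P.X, inferInstance, ⟨P.X_nonempty, inferInstance, (J6_geodesic hcn).1, comparisonC hcn⟩,
    fun γ x => P.ρ γ x, ⟨?_, ?_, ?_⟩, ?_⟩
  · intro x; simp only [map_one]; rfl
  · intro g h x; simp only [map_mul]; rfl
  · intro g x y; exact (P.ρ g).isometry.dist_eq x y
  intro Z hZ
  rintro ⟨ρ₁, ρ₂, ha1, ha2, hcont, hbdd, hcomm, hprod⟩
  obtain ⟨z₀, hz₀⟩ := hZ.nonempty
  have : CompleteSpace Z := hZ.closed.completeSpace_coe
  -- CN inequality in Z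
  have hCNZ : ∀ x y : Z, ∃ m : Z, ∀ z : Z,
      dist z m ^ 2 ≤ (dist z x ^ 2 + dist z y ^ 2) / 2 - dist x y ^ 2 / 4 := by
    intro x y
    obtain ⟨α, hα⟩ := (J6_geodesic hcn).1 (x : P.X) (y : P.X)
    have hmZ : α (1/2) ∈ Z := hZ.convex x x.2 y y.2 α hα (1/2) (by norm_num)
    refine ⟨⟨α (1/2), hmZ⟩, fun z => ?_⟩
    have := J6_star hcn hα (t := 1/2) (by norm_num) (z : P.X)
    rw [Subtype.dist_eq, Subtype.dist_eq, Subtype.dist_eq, Subtype.dist_eq]
    show dist (z : P.X) (α (1/2)) ^ 2 ≤ _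
    linarith
  -- a fixed point of ρ₂
  obtain ⟨z, hz⟩ := J2_fixedPoint hCNZ (actHom ρ₂ ha2.map_one ha2.map_mul ha2.isometry) ⟨z₀, hz₀⟩
    ((hbdd ⟨z₀, hz₀⟩).subset (by rintro _ ⟨γ, rfl⟩; exact ⟨γ, rfl⟩))
  have hz' : ∀ γ : Γ, ρ₂ γ z = z := hz
  exact core0 Γ (fun γ x => P.ρ γ x) d hd h1 h2 h3 hmem hfix N hN hrec Z
    (actHom ρ₁ ha1.map_one ha1.map_mul ha1.isometry) hcont z (fun γ => by
      have h8 := hprod γ z
      rw [hz' γ] at h8
      exact h8)

end Pool.Agent.Results.MP_bac815_al.Counterexample
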